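import Pool.Agent.Lib.MP_9f2731_nt.CG.Mv.Spec

/-!
MP_9f2731_nt, THEOREM CG, chapter Mv, module SuV: the sums of the scalar products.
-/

namespace Pool.Agent.Lib.MP_9f2731_nt.CG.Mv

open Finset
open Pool.Agent.Lib.MP_9f2731_nt.CG

private theorem suv_nn (i j : ℕ) : 0 ≤ al i j := by
  unfold al
  split_ifs <;> positivity

private theorem suv_diag (n : ℕ) : al (n + 1) (n + 1) = (1 / 2) ^ (n + 2) := by
  unfold al
  rw [if_pos rfl, if_neg (Nat.succ_ne_zero n)]

private theorem suv_up (n : ℕ) : al n (n + 1) = (1 / 2) ^ n / 12 := by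
  unfold al
  rw [if_neg (by omega), if_pos rfl]

private theorem suv_dn (n : ℕ) : al (n + 1) n = (1 / 2) ^ n / 12 := by
  unfold al
  rw [if_neg (by omega), if_neg (by omega), if_pos rfl]

private theorem suv_zu {i n : ℕ} (h : i < n) : al i (n + 1) = 0 := by
  unfold al
  rw [if_neg (by omega), if_neg (by omega), if_neg (by omega)]

private theorem suv_zd {i n : ℕ} (h : i < n) : al (n + 1) i = 0 := by
  unfold al
  rw [if_neg (by omega), if_neg (by omega), if_neg (by omega)]

/-- recursion of the weighted double sum -/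
private theorem suv_rec (w : ℕ → ℝ) (n : ℕ) :
    ∑ i ∈ range (n + 2), ∑ j ∈ range (n + 2), w i * al i j =
      ∑ i ∈ range (n + 1), ∑ j ∈ range (n + 1), w i * al i j +
        (w n * ((1 / 2) ^ n / 12) + w (n + 1) * ((1 / 2) ^ n / 12) + w (n + 1) * (1 / 2) ^ (n + 2)) := by
  rw [Finset.sum_range_succ]
  have h1 : ∑ i ∈ range (n + 1), ∑ j ∈ range (n + 2), w i * al i j =
      ∑ i ∈ range (n + 1), ∑ j ∈ range (n + 1), w i * al i j + w n * ((1 / 2) ^ n / 12) := by
    have h2 : ∀ i ∈ range (n + 1), ∑ j ∈ range (n + 2), w i * al i j =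
        ∑ j ∈ range (n + 1), w i * al i j + w i * al i (n + 1) := by
      intro i _
      rw [Finset.sum_range_succ]
    rw [Finset.sum_congr rfl h2, Finset.sum_add_distrib]
    congr 1
    rw [Finset.sum_range_succ, suv_up, Finset.sum_eq_zero, zero_add]
    intro i hi
    rw [suv_zu (mem_range.1 hi), mul_zero]
  have h3 : ∑ j ∈ range (n + 2), w (n + 1) * al (n + 1) j =
      w (n + 1) * ((1 / 2) ^ n / 12) + w (n + 1) * (1 / 2) ^ (n + 2) := by
    rw [Finset.sum_range_succ, Finset.sum_range_succ, suv_dn, suv_diag, Finset.sum_eq_zero, zero_add]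
    intro i hi
    rw [suv_zd (mem_range.1 hi), mul_zero]
  rw [h1, h3]
  ring

private theorem suv_base (w : ℕ → ℝ) :
    ∑ i ∈ range (0 + 1), ∑ j ∈ range (0 + 1), w i * al i j = w 0 * (4 / 3) := by
  simp [al]

private theorem suv_s (n : ℕ) : ∑ i ∈ range (n + 1), ∑ j ∈ range (n + 1), (1 : ℝ) * al i j =
    4 / 3 + 1 / 2 * (1 - (1 / 2) ^ n) + 1 / 3 * (1 - (1 / 2) ^ n) := by
  induction n with
  | zero =>
    rw [suv_base (fun _ => 1)]
    norm_num
  | succ n ih =>
    rw [suv_rec (fun _ => 1), ih]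
    simp only [pow_succ]
    ring

private theorem suv_t (n : ℕ) : ∑ i ∈ range (n + 1), ∑ j ∈ range (n + 1), (2 : ℝ) ^ (i + 1) * al i j =
    8 / 3 + 3 / 2 * n := by
  induction n with
  | zero =>
    rw [suv_base (fun i => 2 ^ (i + 1))]
    norm_num
  | succ n ih =>
    rw [suv_rec (fun i => 2 ^ (i + 1)), ih]
    have h : (2 : ℝ) ^ n * (1 / 2) ^ n = 1 := by
      rw [← mul_pow]
      norm_num
    push_cast
    simp only [pow_succ]
    linear_combination (1 / 6 + 4 / 12 + 1) * h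

private theorem suv_m (n : ℕ) : ∑ i ∈ range (n + 1), mm i = 3 / 2 + 3 / 4 * (n : ℝ) := by
  induction n with
  | zero => simp [mm]
  | succ n ih =>
    rw [Finset.sum_range_succ, ih]
    unfold mm
    rw [if_neg (Nat.succ_ne_zero n)]
    push_cast
    ring

theorem pSuV : SuVStmt := by
  intro n
  have hs := suv_s n
  simp only [one_mul] at hs
  have h0 : (0 : ℝ) ≤ (1 / 2) ^ n := by positivity
  have h1 : ((1 : ℝ) / 2) ^ n ≤ 1 := pow_le_one₀ (by norm_num) (by norm_num)
  have hn : (0 : ℝ) ≤ n := Nat.cast_nonneg n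
  refine ⟨suv_nn, ?_, ?_, ?_, ?_⟩
  · rw [hs]; linarith
  · rw [hs]; linarith
  · rw [suv_t]; linarith
  · rw [suv_m]; linarith

end Pool.Agent.Lib.MP_9f2731_nt.CG.Mv
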