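import Pool.Agent.Lib.MP_9f2731_nt.CG.Mv.Spec

/-!
MP_9f2731_nt, THEOREM CG, chapter Mv: module VaV (helper73), the variational problem.
-/

set_option autoImplicit false

namespace Pool.Agent.Lib.MP_9f2731_nt.CG.Mv

open Finset
open Pool.Agent.Lib.MP_9f2731_nt.CG

private theorem VaV_be {D : ℝ} (hD : 0 < D) (i : ℕ) (s : Fin 3) :
    0 ≤ (pr D i).be s ∧ (pr D i).be s ≤ 2 ^ (i + 1) / D := by
  unfold pr
  split_ifs with h
  · subst h
    fin_cases s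
    · simp only [Fin.zero_eta, Matrix.cons_val_zero]
      refine ⟨by positivity, ?_⟩
      norm_num
    · simp only [Fin.mk_one, Matrix.cons_val_one, Matrix.cons_val_zero]
      refine ⟨by positivity, ?_⟩
      gcongr
      norm_num
    · change (0 : ℝ) ≤ 0 ∧ (0 : ℝ) ≤ _
      exact ⟨le_rfl, by positivity⟩
  · fin_cases s
    · change (0 : ℝ) ≤ 2 ^ (i + 1) / D ∧ (2 : ℝ) ^ (i + 1) / D ≤ _
      exact ⟨by positivity, le_rfl⟩
    · change (0 : ℝ) ≤ 2 ^ i / D ∧ (2 : ℝ) ^ i / D ≤ _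
      refine ⟨by positivity, ?_⟩
      gcongr
      · norm_num
      · omega
    · change (0 : ℝ) ≤ 2 ^ i / (2 * D) ∧ (2 : ℝ) ^ i / (2 * D) ≤ _
      refine ⟨by positivity, ?_⟩
      have h1 : (2 : ℝ) ^ i / (2 * D) ≤ 2 ^ i / D := by
        gcongr
        linarith
      refine h1.trans ?_
      gcongr
      · norm_num
      · omega

private theorem VaV_Iq (h1 : IpVStmt) {D : ℝ} (hD : 0 < D) {K r : ℕ}
    (A : Finset (Fin K → Fin r)) :
    Iq (fun a : Fin r => pr D a) A =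
      (∑ v ∈ A, ∑ u ∈ A, ∏ j, al (v j) (u j)) / (D ^ 3) ^ K := by
  unfold Iq
  rw [Finset.sum_div]
  refine Finset.sum_congr rfl fun v _ => ?_
  rw [Finset.sum_div]
  refine Finset.sum_congr rfl fun u _ => ?_
  have h2 : ∀ j : Fin K, ip (pr D (v j)) (pr D (u j)) = al (v j) (u j) / D ^ 3 :=
    fun j => (h1 D hD _ _).1
  rw [Finset.prod_congr rfl fun j _ => h2 j, Finset.prod_div_distrib, Finset.prod_const,
    Finset.card_univ, Fintype.card_fin]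

private theorem VaV_Jq (h1 : IpVStmt) {D : ℝ} (hD : 0 < D) {K r : ℕ}
    (A : Finset (Fin K → Fin r)) (l : Fin K) :
    Jq (fun a : Fin r => pr D a) A l =
      (∑ v ∈ A, ∑ u ∈ A, mm (v l) * mm (u l) * ∏ j ∈ univ.erase l, al (v j) (u j)) /
        (D ^ 4 * (D ^ 3) ^ (K - 1)) := by
  unfold Jq
  rw [Finset.sum_div]
  refine Finset.sum_congr rfl fun v _ => ?_
  rw [Finset.sum_div]
  refine Finset.sum_congr rfl fun u _ => ?_
  have h2 : ∀ j : Fin K, ip (pr D (v j)) (pr D (u j)) = al (v j) (u j) / D ^ 3 :=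
    fun j => (h1 D hD _ _).1
  have h3 : ∀ i : ℕ, im (pr D i) = mm i / D ^ 2 := fun i => (h1 D hD i i).2
  rw [Finset.prod_congr rfl fun j _ => h2 j, Finset.prod_div_distrib, Finset.prod_const,
    Finset.card_erase_of_mem (Finset.mem_univ l), Finset.card_univ, Fintype.card_fin, h3, h3]
  have hD0 : D ≠ 0 := hD.ne'
  field_simp

open Classical in
private theorem VaV_core (h1 : IpVStmt) (h2 : SuVStmt) (h3 : MkVStmt) (L : ℝ) (hL : 0 ≤ L)
    (n : ℕ) (hn : 139 * L ≤ n + 1) :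
    ∃ (K r : ℕ) (P : Fin r → Pf) (bd : Fin r → ℝ) (𝒜 : Finset (Fin K → Fin r)),
      Vda P bd 𝒜 ∧ L * Iq P 𝒜 ≤ ∑ l, Jq P 𝒜 l := by
  obtain ⟨hal, hS1, hS3, hT, hM⟩ := h2 n
  rw [Finset.sum_range] at hS1 hS3 hT hM
  simp only [Finset.sum_range] at hS1 hS3 hT
  obtain ⟨K, hK⟩ : ∃ K : ℕ, K = 2 ^ (n + 1) := ⟨_, rfl⟩
  obtain ⟨S, hS⟩ : ∃ S : ℝ, S = ∑ i : Fin (n + 1), ∑ j : Fin (n + 1), al i j := ⟨_, rfl⟩
  obtain ⟨T, hTd⟩ : ∃ T : ℝ, T = ∑ i : Fin (n + 1), ∑ j : Fin (n + 1),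
    2 ^ ((i : ℕ) + 1) * al i j := ⟨_, rfl⟩
  obtain ⟨M, hMd⟩ : ∃ M : ℝ, M = ∑ i : Fin (n + 1), mm i := ⟨_, rfl⟩
  obtain ⟨D, hDd⟩ : ∃ D : ℝ, D = 13 * ((n : ℝ) + 1) * K := ⟨_, rfl⟩
  rw [← hS] at hS1 hS3
  rw [← hTd] at hT
  rw [← hMd] at hM
  have hK1 : 1 ≤ K := by rw [hK]; exact Nat.one_le_two_pow
  have hKr : (1 : ℝ) ≤ K := by exact_mod_cast hK1
  have hKp : (K : ℝ) = 2 ^ (n + 1) := by rw [hK]; push_cast; rfl
  have hn0 : (0 : ℝ) ≤ n := Nat.cast_nonneg n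
  have hDK : (13 : ℝ) * K ≤ D := by rw [hDd]; nlinarith
  have hD : 0 < D := by linarith
  have hpow : ∀ a : Fin (n + 1), (2 : ℝ) ^ ((a : ℕ) + 1) ≤ K := by
    intro a
    rw [hKp]
    exact pow_le_pow_right₀ (by norm_num) (by omega)
  have hsym : ∀ i j : Fin (n + 1), al i j = al j i := by
    intro i j
    rcases eq_or_ne (i : ℕ) (j : ℕ) with h | h
    · rw [h]
    · unfold al
      rw [if_neg h, if_neg h.symm]
      split_ifs <;> first | rfl | omega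
  have hmm : ∀ i : Fin (n + 1), 0 ≤ mm i := by
    intro i
    unfold mm
    split_ifs <;> norm_num
  obtain ⟨hA, hB⟩ := h3 K (n + 1) (fun i j => al i j) (fun i => mm i)
    (fun a => 2 ^ ((a : ℕ) + 1)) D K hK1 (fun i j => hal i j) hsym hmm
    (fun a => ⟨by positivity, hpow a⟩) (by linarith) (by rw [← hS]; linarith) (by
      rw [← hS, ← hTd]
      have h4 : (12 : ℝ) * (n + 1) * K ≤ D - K := by rw [hDd]; nlinarith
      have h5 : 4 * ((K : ℝ) - 1) * T ≤ 4 * ((K : ℝ) - 1) * (3 * (n + 1)) :=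
        mul_le_mul_of_nonneg_left hT (by linarith)
      have h6 : (D - K) * 1 ≤ (D - K) * S := mul_le_mul_of_nonneg_left hS1 (by linarith)
      nlinarith)
  rw [← hS] at hA
  rw [← hS, ← hMd] at hB
  obtain ⟨A, hAd⟩ : ∃ A : Finset (Fin K → Fin (n + 1)),
    A = univ.filter (fun v : Fin K → Fin (n + 1) => ∑ j, (2 : ℝ) ^ ((v j : ℕ) + 1) ≤ D) :=
    ⟨_, rfl⟩
  rw [← hAd] at hA hB
  have hmem : ∀ v ∈ A, ∑ j, (2 : ℝ) ^ ((v j : ℕ) + 1) ≤ D := by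
    intro v hv
    rw [hAd, Finset.mem_filter] at hv
    exact hv.2
  have h0 : (fun _ : Fin K => (0 : Fin (n + 1))) ∈ A := by
    rw [hAd, Finset.mem_filter]
    refine ⟨Finset.mem_univ _, ?_⟩
    rw [Finset.sum_const, Finset.card_univ, Fintype.card_fin, nsmul_eq_mul]
    norm_num
    linarith
  have hnn : ∀ v u : Fin K → Fin (n + 1), 0 ≤ ∏ j, al (v j) (u j) :=
    fun v u => Finset.prod_nonneg fun j _ => hal _ _
  have hpos : 0 < ∑ v ∈ A, ∑ u ∈ A, ∏ j, al (v j) (u j) := by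
    refine Finset.sum_pos' (fun v _ => Finset.sum_nonneg fun u _ => hnn v u) ⟨_, h0, ?_⟩
    refine Finset.sum_pos' (fun u _ => hnn _ u) ⟨_, h0, ?_⟩
    refine Finset.prod_pos fun j _ => ?_
    unfold al
    norm_num
  refine ⟨K, n + 1, fun a => pr D a, fun a => 2 ^ ((a : ℕ) + 1) / D, A,
    ⟨hK1, fun a s => VaV_be hD a s, fun a => ?_, fun v hv => ?_, ?_⟩, ?_⟩
  · rw [div_le_one hD]
    linarith [hpow a]
  · rw [← Finset.sum_div, div_le_one hD]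
    exact hmem v hv
  · rw [VaV_Iq h1 hD]
    positivity
  · have hSp : 0 < S := by linarith
    have hJ : ∀ l : Fin K, M ^ 2 * S ^ (K - 1) / 2 / (D ^ 4 * (D ^ 3) ^ (K - 1)) ≤
        Jq (fun a : Fin (n + 1) => pr D a) A l := by
      intro l
      rw [VaV_Jq h1 hD]
      exact div_le_div_of_nonneg_right (hB l) (by positivity)
    have hJs : (K : ℝ) * (M ^ 2 * S ^ (K - 1) / 2 / (D ^ 4 * (D ^ 3) ^ (K - 1))) ≤
        ∑ l, Jq (fun a : Fin (n + 1) => pr D a) A l := by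
      have h4 := Finset.sum_le_sum fun (l : Fin K) (_ : l ∈ univ) => hJ l
      rw [Finset.sum_const, Finset.card_univ, Fintype.card_fin, nsmul_eq_mul] at h4
      exact h4
    refine le_trans ?_ hJs
    rw [VaV_Iq h1 hD]
    have hI : L * ((∑ v ∈ A, ∑ u ∈ A, ∏ j, al (v j) (u j)) / (D ^ 3) ^ K) ≤
        L * (S ^ K / (D ^ 3) ^ K) :=
      mul_le_mul_of_nonneg_left (div_le_div_of_nonneg_right hA (by positivity)) hL
    refine hI.trans ?_
    obtain ⟨k, hk⟩ : ∃ k, K = k + 1 := ⟨K - 1, by omega⟩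
    have hk' : K - 1 = k := by omega
    rw [hk']
    have e1 : L * (S ^ K / (D ^ 3) ^ K) = (L * S * D) * (S ^ k / (D ^ 4 * (D ^ 3) ^ k)) := by
      rw [hk, pow_succ S k, pow_succ (D ^ 3) k]
      field_simp
    have e2 : (K : ℝ) * (M ^ 2 * S ^ k / 2 / (D ^ 4 * (D ^ 3) ^ k)) =
        ((K : ℝ) * M ^ 2 / 2) * (S ^ k / (D ^ 4 * (D ^ 3) ^ k)) := by
      field_simp
    rw [e1, e2]
    refine mul_le_mul_of_nonneg_right ?_ (by positivity)
    have h5 : L * S * D ≤ L * 3 * D :=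
      mul_le_mul_of_nonneg_right (mul_le_mul_of_nonneg_left hS3 hL) hD.le
    have h6 : (3 / 4 * ((n : ℝ) + 1)) ^ 2 ≤ M ^ 2 :=
      pow_le_pow_left₀ (by positivity) hM 2
    have h7 : L * 3 * D ≤ (K : ℝ) * (3 / 4 * ((n : ℝ) + 1)) ^ 2 / 2 := by
      rw [hDd]
      have h8 : 139 * L * (((n : ℝ) + 1) * K) ≤ ((n : ℝ) + 1) * (((n : ℝ) + 1) * K) :=
        mul_le_mul_of_nonneg_right hn (by positivity)
      have h9 : 0 ≤ L * (((n : ℝ) + 1) * K) := by positivity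
      nlinarith
    have h10 : (K : ℝ) * (3 / 4 * ((n : ℝ) + 1)) ^ 2 / 2 ≤ (K : ℝ) * M ^ 2 / 2 := by
      have := mul_le_mul_of_nonneg_left h6 (by linarith : (0 : ℝ) ≤ K)
      linarith
    linarith

theorem pVaV (h1 : IpVStmt) (h2 : SuVStmt) (h3 : MkVStmt) : VaVStmt := by
  intro Λ
  obtain ⟨n, hn⟩ := exists_nat_ge (139 * max Λ 0)
  obtain ⟨K, r, P, bd, A, hV, hI⟩ := VaV_core h1 h2 h3 (max Λ 0) (le_max_right _ _) n
    (by linarith)
  exact ⟨K, r, P, bd, A, hV,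
    (mul_le_mul_of_nonneg_right (le_max_left Λ 0) hV.pos.le).trans hI⟩

end Pool.Agent.Lib.MP_9f2731_nt.CG.Mv
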