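import Pool.Agent.Lib.MP_9f2731_nt.CG.Mv.Spec

/-!
MP_9f2731_nt, CG/Mv, module VcD (helper29): additional coordinates in the variational problem.
-/

namespace Pool.Agent.Lib.MP_9f2731_nt.CG.Mv

open Finset

open Pool.Agent.Lib.MP_9f2731_nt.CG

/-- the profiles scaled by 1/2, and one additional profile -/
private noncomputable def xP {r : ℕ} (β : ℝ) (P : Fin r → Pf) : Fin (r + 1) → Pf :=
  Fin.snoc (α := fun _ => Pf) (fun a => ⟨(P a).co, fun s => (P a).be s / 2⟩) ⟨![1, 0, 0], ![β, 0, 0]⟩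

private noncomputable def xb {r : ℕ} (β : ℝ) (bd : Fin r → ℝ) : Fin (r + 1) → ℝ :=
  Fin.snoc (α := fun _ => ℝ) (fun a => bd a / 2) β

private def xv {r K : ℕ} (n : ℕ) (v : Fin K → Fin r) : Fin (K + n) → Fin (r + 1) :=
  Fin.append (fun j => (v j).castSucc) (fun _ => Fin.last r)

private theorem xP_cast {r : ℕ} (β : ℝ) (P : Fin r → Pf) (a : Fin r) :
    xP β P a.castSucc = ⟨(P a).co, fun s => (P a).be s / 2⟩ := by
  unfold xP
  rw [Fin.snoc_castSucc]

private theorem xP_last {r : ℕ} (β : ℝ) (P : Fin r → Pf) :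
    xP β P (Fin.last r) = ⟨![1, 0, 0], ![β, 0, 0]⟩ := by
  unfold xP
  rw [Fin.snoc_last]

private theorem xb_cast {r : ℕ} (β : ℝ) (bd : Fin r → ℝ) (a : Fin r) :
    xb β bd a.castSucc = bd a / 2 := by
  unfold xb
  rw [Fin.snoc_castSucc]

private theorem xb_last {r : ℕ} (β : ℝ) (bd : Fin r → ℝ) : xb β bd (Fin.last r) = β := by
  unfold xb
  rw [Fin.snoc_last]

private theorem xv_left {r K : ℕ} (n : ℕ) (v : Fin K → Fin r) (j : Fin K) :
    xv n v (Fin.castAdd n j) = (v j).castSucc := by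
  unfold xv
  rw [Fin.append_left]

private theorem xv_right {r K : ℕ} (n : ℕ) (v : Fin K → Fin r) (j : Fin n) :
    xv n v (Fin.natAdd K j) = Fin.last r := by
  unfold xv
  rw [Fin.append_right]

private theorem xv_inj {r K : ℕ} (n : ℕ) : Function.Injective (xv (r := r) (K := K) n) := by
  intro v u h
  funext j
  have h1 := congrFun h (Fin.castAdd n j)
  rw [xv_left, xv_left] at h1
  exact Fin.castSucc_injective r h1

private theorem xEe (a b : ℝ) : Ee (a / 2) (b / 2) = Ee a b / 8 := by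
  unfold Ee
  rcases le_total a b with h | h
  · rw [min_eq_left h, max_eq_right h, min_eq_left (by linarith), max_eq_right (by linarith)]
    ring
  · rw [min_eq_right h, max_eq_left h, min_eq_right (by linarith), max_eq_left (by linarith)]
    ring

private theorem xip {r : ℕ} (β : ℝ) (P : Fin r → Pf) (a b : Fin r) :
    ip (xP β P a.castSucc) (xP β P b.castSucc) = ip (P a) (P b) / 8 := by
  rw [xP_cast, xP_cast]
  unfold ip
  rw [Finset.sum_div]
  refine Finset.sum_congr rfl fun s _ => ?_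
  rw [Finset.sum_div]
  refine Finset.sum_congr rfl fun t _ => ?_
  show (P a).co s * (P b).co t * (4 * Ee ((P a).be s / 2) ((P b).be t / 2)) = _
  rw [xEe]
  ring

private theorem xim {r : ℕ} (β : ℝ) (P : Fin r → Pf) (a : Fin r) :
    im (xP β P a.castSucc) = im (P a) / 4 := by
  rw [xP_cast]
  unfold im
  rw [Finset.sum_div]
  refine Finset.sum_congr rfl fun s _ => ?_
  show (P a).co s * ((P a).be s / 2) ^ 2 = _
  ring

private theorem xipl {r : ℕ} (β : ℝ) (P : Fin r → Pf) :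
    ip (xP β P (Fin.last r)) (xP β P (Fin.last r)) = 4 * β ^ 3 / 3 := by
  rw [xP_last]
  unfold ip
  simp only [Fin.sum_univ_three]
  show (1 : ℝ) * 1 * (4 * Ee β β) + 1 * 0 * (4 * Ee β 0) + 1 * 0 * (4 * Ee β 0) +
    (0 * 1 * (4 * Ee 0 β) + 0 * 0 * (4 * Ee 0 0) + 0 * 0 * (4 * Ee 0 0)) +
    (0 * 1 * (4 * Ee 0 β) + 0 * 0 * (4 * Ee 0 0) + 0 * 0 * (4 * Ee 0 0)) = _
  have h : Ee β β = β ^ 3 / 3 := by
    unfold Ee
    rw [min_self, max_self]
    ring
  rw [h]
  ring

private theorem xprod {r K : ℕ} (n : ℕ) (β : ℝ) (P : Fin r → Pf) (v u : Fin K → Fin r) :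
    ∏ j, ip (xP β P (xv n v j)) (xP β P (xv n u j)) =
      (1 / 8) ^ K * (4 * β ^ 3 / 3) ^ n * ∏ j, ip (P (v j)) (P (u j)) := by
  rw [Fin.prod_univ_add]
  have h1 : ∏ j : Fin K, ip (xP β P (xv n v (Fin.castAdd n j))) (xP β P (xv n u (Fin.castAdd n j))) =
      (1 / 8) ^ K * ∏ j, ip (P (v j)) (P (u j)) := by
    have h2 : ∀ j : Fin K, ip (xP β P (xv n v (Fin.castAdd n j))) (xP β P (xv n u (Fin.castAdd n j))) =
        (1 / 8) * ip (P (v j)) (P (u j)) := by
      intro j
      rw [xv_left, xv_left, xip]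
      ring
    rw [Finset.prod_congr rfl (fun j _ => h2 j), Finset.prod_mul_distrib, Finset.prod_const, card_univ,
      Fintype.card_fin]
  have h3 : ∏ j : Fin n, ip (xP β P (xv n v (Fin.natAdd K j))) (xP β P (xv n u (Fin.natAdd K j))) =
      (4 * β ^ 3 / 3) ^ n := by
    have h4 : ∀ j : Fin n, ip (xP β P (xv n v (Fin.natAdd K j))) (xP β P (xv n u (Fin.natAdd K j))) =
        4 * β ^ 3 / 3 := by
      intro j
      rw [xv_right, xv_right, xipl]
    rw [Finset.prod_congr rfl (fun j _ => h4 j), Finset.prod_const, card_univ, Fintype.card_fin]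
  rw [h1, h3]
  ring

private theorem xerase {K n : ℕ} (i : Fin K) (F : Fin (K + n) → ℝ) :
    ∏ j ∈ univ.erase (Fin.castAdd n i), F j =
      (∏ j ∈ univ.erase i, F (Fin.castAdd n j)) * ∏ j : Fin n, F (Fin.natAdd K j) := by
  have h1 : ∏ j ∈ univ.erase (Fin.castAdd n i), F j =
      ∏ j, (if j = Fin.castAdd n i then 1 else F j) := by
    rw [← Finset.mul_prod_erase univ _ (mem_univ (Fin.castAdd n i)), if_pos rfl, one_mul]
    refine Finset.prod_congr rfl fun j hj => ?_
    rw [if_neg (ne_of_mem_erase hj)]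
  rw [h1, Fin.prod_univ_add]
  congr 1
  · rw [← Finset.mul_prod_erase univ _ (mem_univ i), if_pos rfl, one_mul]
    refine Finset.prod_congr rfl fun j hj => ?_
    rw [if_neg]
    intro h
    exact ne_of_mem_erase hj (Fin.castAdd_injective K n h)
  · refine Finset.prod_congr rfl fun j _ => ?_
    rw [if_neg]
    intro h
    have h2 := congrArg Fin.val h
    rw [Fin.val_natAdd, Fin.val_castAdd] at h2
    have := i.isLt
    omega

private theorem xJ {r K : ℕ} (n : ℕ) (β : ℝ) (P : Fin r → Pf) (v u : Fin K → Fin r) (i : Fin K)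
    (hK : 1 ≤ K) :
    im (xP β P (xv n v (Fin.castAdd n i))) * im (xP β P (xv n u (Fin.castAdd n i))) *
      ∏ j ∈ univ.erase (Fin.castAdd n i), ip (xP β P (xv n v j)) (xP β P (xv n u j)) =
      1 / 2 * ((1 / 8) ^ K * (4 * β ^ 3 / 3) ^ n) *
        (im (P (v i)) * im (P (u i)) * ∏ j ∈ univ.erase i, ip (P (v j)) (P (u j))) := by
  rw [xerase]
  have h1 : ∏ j ∈ univ.erase i, ip (xP β P (xv n v (Fin.castAdd n j)))
      (xP β P (xv n u (Fin.castAdd n j))) =
      (1 / 8) ^ (K - 1) * ∏ j ∈ univ.erase i, ip (P (v j)) (P (u j)) := by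
    have h2 : ∀ j : Fin K, ip (xP β P (xv n v (Fin.castAdd n j))) (xP β P (xv n u (Fin.castAdd n j))) =
        (1 / 8) * ip (P (v j)) (P (u j)) := by
      intro j
      rw [xv_left, xv_left, xip]
      ring
    rw [Finset.prod_congr rfl (fun j _ => h2 j), Finset.prod_mul_distrib, Finset.prod_const,
      Finset.card_erase_of_mem (mem_univ i), card_univ, Fintype.card_fin]
  have h3 : ∏ j : Fin n, ip (xP β P (xv n v (Fin.natAdd K j))) (xP β P (xv n u (Fin.natAdd K j))) =
      (4 * β ^ 3 / 3) ^ n := by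
    have h4 : ∀ j : Fin n, ip (xP β P (xv n v (Fin.natAdd K j))) (xP β P (xv n u (Fin.natAdd K j))) =
        4 * β ^ 3 / 3 := by
      intro j
      rw [xv_right, xv_right, xipl]
    rw [Finset.prod_congr rfl (fun j _ => h4 j), Finset.prod_const, card_univ, Fintype.card_fin]
  rw [h1, h3, xv_left, xv_left, xim, xim]
  have h5 : (1 / 8 : ℝ) ^ K = 1 / 8 * (1 / 8) ^ (K - 1) := by
    rw [← pow_succ']
    congr 1
    omega
  rw [h5]
  ring

theorem pVcD (h : VarStmt) : VcDStmt := by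
  classical
  intro Λ
  obtain ⟨K, r, P, bd, 𝒜, hV, hΛ⟩ := h (2 * max Λ 0)
  refine ⟨K, hV.hK, ?_⟩
  intro L hL
  obtain ⟨n, rfl⟩ := Nat.exists_eq_add_of_le hL
  have hK := hV.hK
  have hL0 : (0 : ℝ) < ((K + n : ℕ) : ℝ) := by
    have : 0 < K + n := by omega
    exact_mod_cast this
  set β : ℝ := 1 / (2 * ((K + n : ℕ) : ℝ)) with hβ
  have hβ0 : 0 < β := by positivity
  set c : ℝ := (1 / 8) ^ K * (4 * β ^ 3 / 3) ^ n with hc
  have hc0 : 0 < c := by positivity
  have hI : Iq (xP β P) (𝒜.image (xv n)) = c * Iq P 𝒜 := by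
    unfold Iq
    rw [Finset.sum_image (fun _ _ _ _ h => xv_inj n h), Finset.mul_sum]
    refine Finset.sum_congr rfl fun v _ => ?_
    rw [Finset.sum_image (fun _ _ _ _ h => xv_inj n h), Finset.mul_sum]
    refine Finset.sum_congr rfl fun u _ => ?_
    exact xprod n β P v u
  have hJ : ∀ i : Fin K, Jq (xP β P) (𝒜.image (xv n)) (Fin.castAdd n i) = 1 / 2 * c * Jq P 𝒜 i := by
    intro i
    unfold Jq
    rw [Finset.sum_image (fun _ _ _ _ h => xv_inj n h), Finset.mul_sum]
    refine Finset.sum_congr rfl fun v _ => ?_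
    rw [Finset.sum_image (fun _ _ _ _ h => xv_inj n h), Finset.mul_sum]
    refine Finset.sum_congr rfl fun u _ => ?_
    exact xJ n β P v u i hK
  refine ⟨r + 1, xP β P, xb β bd, 𝒜.image (xv n), ⟨by omega, ?_, ?_, ?_, ?_⟩, ?_⟩
  · intro a s
    refine Fin.lastCases ?_ (fun b => ?_) a
    · rw [xP_last, xb_last]
      show 0 ≤ (![β, 0, 0] : Fin 3 → ℝ) s ∧ (![β, 0, 0] : Fin 3 → ℝ) s ≤ β
      fin_cases s
      · exact ⟨hβ0.le, le_rfl⟩
      · exact ⟨le_rfl, hβ0.le⟩
      · exact ⟨le_rfl, hβ0.le⟩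
    · rw [xP_cast, xb_cast]
      have h1 := hV.be b s
      show 0 ≤ (P b).be s / 2 ∧ (P b).be s / 2 ≤ bd b / 2
      exact ⟨by linarith, by linarith⟩
  · intro a
    refine Fin.lastCases ?_ (fun b => ?_) a
    · rw [xb_last, hβ, div_le_one (by positivity)]
      have : (1 : ℝ) ≤ ((K + n : ℕ) : ℝ) := by exact_mod_cast (show 1 ≤ K + n by omega)
      linarith
    · rw [xb_cast]
      have := hV.one b
      linarith
  · intro v' hv'
    rw [mem_image] at hv'
    obtain ⟨v, hv, rfl⟩ := hv'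
    rw [Fin.sum_univ_add]
    have h1 : ∑ j : Fin K, xb β bd (xv n v (Fin.castAdd n j)) = (∑ j, bd (v j)) / 2 := by
      rw [Finset.sum_div]
      refine Finset.sum_congr rfl fun j _ => ?_
      rw [xv_left, xb_cast]
    have h2 : ∑ j : Fin n, xb β bd (xv n v (Fin.natAdd K j)) = n * β := by
      rw [Finset.sum_congr rfl (fun j _ => by rw [xv_right, xb_last]), Finset.sum_const, card_univ,
        Fintype.card_fin, nsmul_eq_mul]
    rw [h1, h2]
    have h3 := hV.simp v hv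
    have h4 : (n : ℝ) * β ≤ 1 / 2 := by
      rw [hβ, mul_one_div, div_le_div_iff₀ (by positivity) (by norm_num)]
      push_cast
      have : (0 : ℝ) ≤ K := Nat.cast_nonneg K
      linarith
    linarith
  · rw [hI]
    exact mul_pos hc0 hV.pos
  · have h1 : ∑ l ∈ univ.filter (fun l : Fin (K + n) => (l : ℕ) < K),
        Jq (xP β P) (𝒜.image (xv n)) l = 1 / 2 * c * ∑ i, Jq P 𝒜 i := by
      rw [Finset.sum_filter, Fin.sum_univ_add, Finset.mul_sum]
      have h2 : ∑ j : Fin n, (if ((Fin.natAdd K j : Fin (K + n)) : ℕ) < K then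
          Jq (xP β P) (𝒜.image (xv n)) (Fin.natAdd K j) else 0) = 0 := by
        refine Finset.sum_eq_zero fun j _ => ?_
        rw [if_neg]
        rw [Fin.val_natAdd]
        omega
      rw [h2, add_zero]
      refine Finset.sum_congr rfl fun i _ => ?_
      rw [if_pos (by rw [Fin.val_castAdd]; exact i.isLt), hJ]
    rw [h1, hI]
    have h2 : Λ * (c * Iq P 𝒜) ≤ max Λ 0 * (c * Iq P 𝒜) :=
      mul_le_mul_of_nonneg_right (le_max_left _ _) (mul_pos hc0 hV.pos).le
    have h3 := mul_le_mul_of_nonneg_left hΛ (show 0 ≤ 1 / 2 * c by positivity)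
    calc Λ * (c * Iq P 𝒜) ≤ max Λ 0 * (c * Iq P 𝒜) := h2
      _ = 1 / 2 * c * (2 * max Λ 0 * Iq P 𝒜) := by ring
      _ ≤ _ := h3

end Pool.Agent.Lib.MP_9f2731_nt.CG.Mv
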