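import Pool.Agent.Lib.MP_9f2731_nt.CG.Mv.IpV
import Pool.Agent.Lib.MP_9f2731_nt.CG.Mv.SuV
import Pool.Agent.Lib.MP_9f2731_nt.CG.Mv.MkV
import Pool.Agent.Lib.MP_9f2731_nt.CG.Mv.VaV
import Pool.Agent.Lib.MP_9f2731_nt.CG.Mv.VcD

/-!
MP_9f2731_nt, THEOREM CG (helper92, helper78), chapter Mv: composition of the modules.
-/

namespace Pool.Agent.Lib.MP_9f2731_nt.CG.Mv

open Pool.Agent.Lib.MP_9f2731_nt.CG

theorem mvAll : VarLStmt := pVcD (pVaV pIpV pSuV pMkV)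

end Pool.Agent.Lib.MP_9f2731_nt.CG.Mv
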