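import Pool.Agent.Lib.MP_9f2731_nt.CG.Defs

/-!
MP_9f2731_nt, THEOREM CG (helper92), chapter Mv: the variational problem. Piecewise linear hats on a dyadic scale; the
restriction to the simplex costs a factor 2 by Markov's inequality. Only finite sums of real numbers.

RULES. Module X: file Pool/Agent/Lib/MP_9f2731_nt/CG/Mv/X.lean, first line `import
Pool.Agent.Lib.MP_9f2731_nt.CG.Mv.Spec`, `namespace Pool.Agent.Lib.MP_9f2731_nt.CG.Mv`, `open Finset`, `open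
Pool.Agent.Lib.MP_9f2731_nt.CG`, final theorem `theorem pX : XStmt`; the statements listed under Uses are HYPOTHESES of
pX, in this order. All modules are independent.
-/

namespace Pool.Agent.Lib.MP_9f2731_nt.CG.Mv

open Finset
open Pool.Agent.Lib.MP_9f2731_nt.CG

/-- `2^(-i)` times the hat function with support [ε 2^(i-1), ε 2^(i+1)] and peak 1 at ε 2^i -/
noncomputable def hp (ε : ℝ) (i : ℕ) : Pf where
  co := ![1 / (2 * ε * 4 ^ i), -3 / (2 * ε * 4 ^ i), 2 / (2 * ε * 4 ^ i)]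
  be := ![ε * 2 ^ (i + 1), ε * 2 ^ i, ε * 2 ^ i / 2]

/-- Module PrF (30 lines). Uses: nothing. Proof. Finset.prod_univ_sum (or Fintype.piFinset) for the functions j ↦ (v j, u j) : Fin K → Fin r × Fin r; the equivalence of pairs of functions with functions to pairs (Equiv.arrowProdEquivProdArrow), Fintype.sum_prod_type. -/
def PrFStmt : Prop := ∀ (K r : ℕ) (F : Fin K → Fin r → Fin r → ℝ),
  ∑ v : Fin K → Fin r, ∑ u : Fin K → Fin r, ∏ j, F j (v j) (u j) = ∏ j, ∑ a, ∑ b, F j a b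

/-- Module VcA (150 lines). Uses: PrF. Proof. First part: all terms are ≥ 0, so the sum over 𝒜 × 𝒜 is at most the sum over all v, u, which is S^K (PrF). Second part: call v good if ∑_{j ≠ l} bd (v j) ≤ 1/2; then v ∈ 𝒜, because bd (v l) ≤ 1/2. Let β(v) = 2 ∑_{j ≠ l} bd (v j) ≥ 0, > 1 if v is not good. With t(v,u) = A (v l) A (u l) ∏_{j ≠ l} e (v j) (u j) ≥ 0
the sum over 𝒜 × 𝒜 is ≥ the sum over the pairs of good v, u ≥ ∑_{v,u} t(v,u) (1 - β(v) - β(u)) (a pair with a bad member has a nonpositive term on the right side). By PrF (F l a b = A a A b, F j = e for j ≠ l) ∑_{v,u} t = (∑ A)^2 S^(K-1), and for j0 ≠ l (F j0 a b = bd a e a b) ∑_{v,u} t bd (v j0) = (∑ A)^2 B S^(K-2), B = ∑_a bd a ∑_b e a b ≤ S/(8K); the same for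
bd (u j0) by symmetry of e. So ∑ t (β(v) + β(u)) ≤ 4 (K-1) (∑ A)^2 B S^(K-2) ≤ (1/2) (∑ A)^2 S^(K-1). (K = 1: β = 0.) -/
def VcAStmt : Prop := ∀ (K r : ℕ) (e : Fin r → Fin r → ℝ) (A bd : Fin r → ℝ) (S : ℝ), 1 ≤ K →
  (∀ a b, 0 ≤ e a b) → (∀ a b, e a b = e b a) → (∀ a, 0 ≤ A a) → (∀ a, 0 ≤ bd a ∧ bd a ≤ 1 / 2) →
  S = ∑ a, ∑ b, e a b → 0 < S → (K : ℝ) * ∑ a, bd a * ∑ b, e a b ≤ S / 8 →
  ∑ v ∈ univ.filter (fun v : Fin K → Fin r => ∑ j, bd (v j) ≤ 1),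
    ∑ u ∈ univ.filter (fun u : Fin K → Fin r => ∑ j, bd (u j) ≤ 1), ∏ j, e (v j) (u j) ≤ S ^ K ∧
  ∀ l : Fin K, (∑ a, A a) ^ 2 * S ^ (K - 1) / 2 ≤
    ∑ v ∈ univ.filter (fun v : Fin K → Fin r => ∑ j, bd (v j) ≤ 1),
      ∑ u ∈ univ.filter (fun u : Fin K → Fin r => ∑ j, bd (u j) ≤ 1),
        A (v l) * A (u l) * ∏ j ∈ univ.erase l, e (v j) (u j)

/-- Module VcB (120 lines). Uses: nothing. Proof. Expand the sums over Fin 3 (Fin.sum_univ_three), resolve min and max (for i and j ≥ i + 2 all exponents of hp ε i are ≤ ε 2^(i+1) ≤ ε 2^j/2 ≤ all exponents of hp ε j; pow_add, 2^j = 2^(i+2) 2^(j-i-2)); field_simp, ring. For j ≥ i + 2: with x ≤ y Ee x y = x^2 y/2 - x^3/6, and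
∑ co' = 0, ∑ co' be' = 0 for hp ε j, so the double sum vanishes. Ee is symmetric. -/
def VcBStmt : Prop := ∀ (ε : ℝ) (i : ℕ), 0 < ε →
  im (hp ε i) = 3 / 4 * ε ∧ ip (hp ε i) (hp ε i) = ε / (2 * 2 ^ i) ∧
  ip (hp ε i) (hp ε (i + 1)) = ε / (12 * 2 ^ i) ∧ ip (hp ε (i + 1)) (hp ε i) = ε / (12 * 2 ^ i) ∧
  ∀ j : ℕ, i + 2 ≤ j → ip (hp ε i) (hp ε j) = 0 ∧ ip (hp ε j) (hp ε i) = 0

/-- Module VcC (150 lines). Uses: VcA, VcB. Proof. r ≥ 1 with 128 Λ ≤ r, K = 2^r, ε = 1/(24 r K), P a = hp ε a, bd a = ε 2^(a+1) ≤ ε 2^r ≤ 1/2, 𝒜 = all v with ∑ bd (v j) ≤ 1. e a b = ip (P a) (P b) ≥ 0 symmetric (VcB), A a = 3ε/4. Row sums: ∑_b e a b ≤ ε 2^(-a) (1/2 + 1/12 + 1/6) = (3/4) ε 2^(-a) (at most the three b with |a - b| ≤ 1). So S ≤ (3/2) ε,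
S ≥ e 0 0 = ε/2, ∑_a bd a ∑_b e a b ≤ (3/2) r ε^2, and K times this is ≤ (3/2) ε/24 = ε/16 ≤ S/8. VcA: Iq ≤ S^K, Jq l ≥ ((3/4) r ε)^2 S^(K-1)/2, so ∑_l Jq l ≥ K (9/32) r^2 ε^2 S^(K-1) = (9/32)(r/24) ε S^(K-1) ≥ (r/128) S^K (ε ≥ (2/3) S) ≥ Λ Iq (if Λ ≥ 0; for Λ < 0 the right side is ≤ 0: Iq > 0, Jq ≥ 0).
Vda: be ≤ bd, bd ≤ 1, and Iq ≥ the term v = u = 0: (ε/2)^K > 0 (K bd 0 = 2 ε K ≤ 1, all other terms are ≥ 0). -/
def VcCStmt : Prop := VarStmt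

/-- Module VcD (130 lines; additional coordinates). Uses: VarStmt. Proof. VarStmt for 2 Λ (Λ ≥ 0 wlog: for Λ < 0 use 0): K, r, P, bd, 𝒜. Given L ≥ K: β = 1/(2 L), r' = r + 1, P' (castSucc a) = (P a with all be halved, co unchanged), P' last = (co = (1,0,0), be = (β,0,0)), bd' (castSucc a) = bd a/2, bd' last = β; for v ∈ 𝒜 let v' j = castSucc (v j) for j < K and
v' j = last for j ≥ K (v ↦ v' injective), 𝒜' = the image. Ee is homogeneous of degree 3, so ip' = ip/8, im' = im/4 for castSucc indices, ip (P' last) (P' last) = 4 β^3/3 =: τ > 0. Iq' = (1/8)^K τ^(L-K) Iq, Jq' l = (1/16) (1/8)^(K-1) τ^(L-K) Jq l for l < K, so ∑ Jq' ≥ (1/2)(2 Λ) Iq'. ∑ bd' (v' j) ≤ 1/2 + (L - K) β ≤ 1. (A product over Fin L is the product over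
the j < K times the product over the rest; L = K + n, Fin.castAdd, Fin.natAdd, Fin.prod_univ_add.) -/
def VcDStmt : Prop := VarLStmt

/-! ### Second version (helper78), the same statement VarStmt:

MP_9f2731_nt, THEOREM CG, chapter Mv (architect helper78): VarStmt, the ratio of the quadratic forms of the Maynard-Tao
method is unbounded, with an explicit tensor construction. Rules: a module `X.lean` in this directory starts with `import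
Pool.Agent.Lib.MP_9f2731_nt.CG.Mv.Spec`, `namespace Pool.Agent.Lib.MP_9f2731_nt.CG.Mv`, `open Finset`, `open
Pool.Agent.Lib.MP_9f2731_nt.CG` and proves the theorem `pX`. Statements under Uses are hypotheses, in this order. All modules
are independent.

The functions behind the profiles (u = D t): `h_0(u) = (2-u)_+ - (1-u)_+`, for i ≥ 1 the hat on [2^(i-1), 2^(i+1)] with
maximum 1 at 2^i: `h_i(u) = 2^(-i) ((2^(i+1)-u)_+ - 3 (2^i-u)_+ + 2 (2^(i-1)-u)_+)`; H_i = 2^(-i) h_i; al i j = ∫ H_i H_j,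
mm i = ∫ H_i. (The modules only use the algebraic formulas.)
-/

/-- the i-th profile, scaled by D -/
noncomputable def pr (D : ℝ) (i : ℕ) : Pf :=
  if i = 0 then ⟨![1 / 2, -(1 / 2), 0], ![2 / D, 1 / D, 0]⟩
  else ⟨![(1 / 4) ^ i / 2, -(3 * (1 / 4) ^ i / 2), (1 / 4) ^ i], ![2 ^ (i + 1) / D, 2 ^ i / D, 2 ^ i / (2 * D)]⟩

/-- scalar products -/
noncomputable def al (i j : ℕ) : ℝ :=
  if i = j then (if i = 0 then 4 / 3 else (1 / 2) ^ (i + 1))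
  else if j = i + 1 then (1 / 2) ^ i / 12 else if i = j + 1 then (1 / 2) ^ j / 12 else 0

/-- integrals -/
noncomputable def mm (i : ℕ) : ℝ := if i = 0 then 3 / 2 else 3 / 4

/-- Module IpV. Uses: nothing. Proof. im: D^2 im = co·β^2: i = 0: (4 - 1)/2 = 3/2; i ≥ 1: (4^(-i)/2)(4^(i+1) - 3 4^i + 2
4^(i-1)) = (1/2)(4 - 3 + 1/2) = 3/4. ip is symmetric (Ee is symmetric), so let i ≤ j. Ee (a/D) (b/D) = Ee a b/D^3 for D > 0
(min, max), and Ee a b = a^2 (3 b - a)/6 for a ≤ b. Let x = 2^i. (1) j ≥ i + 2 (so j ≥ 2): every cutoff a of P_i is ≤ 2^(i+1)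
≤ 2^(j-1) = the smallest cutoff of P_j, so for fixed a the sum over the three cutoffs b of P_j is (a^2/2) ∑ co b - (a^3/6) ∑
co, and ∑ co = 0, ∑ co b = (4^(-j)/2)(2^(j+1) - 3 2^j + 2 2^(j-1)) = 0. The case i = 0 (cutoffs 2, 1, 0, Ee 0 b = 0) is
included. (2) j = i ≥ 1: the cutoffs are 2x, x, x/2 with coefficients c, -3c, 2c, c = 1/(2 x^2); ordering known, the nine
terms give (with Ee: Ee(2x,2x) = 8x^3/3, Ee(x,x) = x^3/3, Ee(x/2,x/2) = x^3/24, Ee(2x,x) = 5x^3/6, Ee(2x,x/2) = 11x^3/48,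
Ee(x,x/2) = 5x^3/48) 4 c^2 x^3 (8/3 + 9/3 + 4/24 - 6 5/6 + 4 11/48 - 12 5/48) = 4 c^2 x^3/2 = 1/(2x). (3) j = i + 1, i ≥ 1: a
∈ {2x, x, x/2} with c, -3c, 2c, b ∈ {4x, 2x, x} with c/4 (1, -3, 2): all pairs have a ≤ b except (2x, x); if Ee(2x, x) = x^2
(6x - x)/6 = 5x^3/6 is replaced by the linear formula (2x)^2 (3x - 2x)/6 = 4x^3/6, the sum is 0 as in (1), so the sum is 4 c
(c/4) 2 (x^3/6) = c^2 x^3/3 = 1/(12x). (4) i = j = 0: cutoffs 2, 1 with 1/2, -1/2: Ee 2 2 + Ee 1 1 - 2 Ee 2 1 = 8/3 + 1/3 -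
5/3 = 4/3 (4 co co = ± 1; third coefficient 0). (5) i = 0, j = 1: a ∈ {2, 1} with 1/2, -1/2, b ∈ {4, 2, 1} with 1/8, -3/8,
2/8: only (2, 1) is in the wrong order: 4 (1/2)(2/8)(5/6 - 4/6) = 1/12. -/
def IpVStmt : Prop :=
  ∀ D : ℝ, 0 < D → ∀ i j : ℕ, ip (pr D i) (pr D j) = al i j / D ^ 3 ∧ im (pr D i) = mm i / D ^ 2

/-- Module SuV. Uses: nothing. Proof. al is symmetric, supported on |i - j| ≤ 1. By induction on n (the sum for n + 1 minus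
the sum for n has the terms (n,n), (n-1,n), (n,n-1), n ≥ 1): exact values ∑∑ al = 4/3 + ∑_{1 ≤ i ≤ n} 2^(-i-1) + 2 ∑_{i < n}
2^(-i)/12 ≤ 4/3 + 1/2 + 1/3, ∑∑ 2^(i+1) al i j = 8/3 + n + n/2 and ∑ mm = 3/2 + 3n/4 (n + 1 = the number of indices). -/
def SuVStmt : Prop :=
  ∀ n : ℕ, (∀ i j : ℕ, 0 ≤ al i j) ∧
    1 ≤ ∑ i ∈ range (n + 1), ∑ j ∈ range (n + 1), al i j ∧
    ∑ i ∈ range (n + 1), ∑ j ∈ range (n + 1), al i j ≤ 3 ∧
    ∑ i ∈ range (n + 1), ∑ j ∈ range (n + 1), 2 ^ (i + 1) * al i j ≤ 3 * (n + 1) ∧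
    (3 / 4 : ℝ) * (n + 1) ≤ ∑ i ∈ range (n + 1), mm i

open Classical in
/-- Module MkV (Markov). Uses: nothing. Proof. S = ∑∑ α, 𝒜 = the set. (1) all terms are ≥ 0, and the sum over all pairs (v,
u) is ∏_j ∑_{i,i'} α i i' = S^K (Finset.prod_univ_sum and Fintype.piFinset_univ, or Finset.sum_prod_piFinset; for a double
sum over (v, u) use the functions j ↦ (v j, u j), i.e. the equivalence (Fin K → Fin r) × (Fin K → Fin r) ≃ (Fin K → Fin r ×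
Fin r), Equiv.arrowProdEquivProdArrow, Fintype.sum_prod_type). (2) Fix l. Weights W v u = m (v l) m (u l) ∏_{j ≠ l} α (v j) (u
j) = ∏_j A j (v j) (u j) with A l i i' = m i m i', A j = α for j ≠ l; W ≥ 0; ∑_all W = (∑ m)^2 S^(K-1). If v ∉ 𝒜, then ∑_j
ℓ (v j) > D, so ∑_{j ≠ l} ℓ (v j) > D - Lm > 0, i.e. 1 ≤ ∑_{j ≠ l} ℓ (v j)/(D - Lm). So the sum of W over the pairs with v ∉
𝒜 is ≤ (1/(D - Lm)) ∑_{j ≠ l} ∑_all ℓ (v j) W v u, and by the product formula (factor j changed to ℓ i α i i') every inner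
sum is (∑ m)^2 S^(K-2) T, T = ∑∑ ℓ i α i i': total ≤ (K - 1) (∑ m)^2 S^(K-2) T/(D - Lm) ≤ (∑ m)^2 S^(K-1)/4. The same for
the pairs with u ∉ 𝒜 (α is symmetric). So the sum over 𝒜 × 𝒜 is ≥ (∑ m)^2 S^(K-1) (1 - 1/4 - 1/4). (K = 1: the set {j ≠ l}
is empty; the bound is trivial.) -/
def MkVStmt : Prop :=
  ∀ (K r : ℕ) (α : Fin r → Fin r → ℝ) (m ℓ : Fin r → ℝ) (D Lm : ℝ), 1 ≤ K → (∀ i j, 0 ≤ α i j) →
    (∀ i j, α i j = α j i) → (∀ i, 0 ≤ m i) → (∀ i, 0 ≤ ℓ i ∧ ℓ i ≤ Lm) → Lm < D → 0 < ∑ i, ∑ j, α i j →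
    4 * ((K : ℝ) - 1) * ∑ i, ∑ j, ℓ i * α i j ≤ (D - Lm) * ∑ i, ∑ j, α i j →
    (∑ v ∈ univ.filter (fun v : Fin K → Fin r => ∑ j, ℓ (v j) ≤ D),
      ∑ u ∈ univ.filter (fun u : Fin K → Fin r => ∑ j, ℓ (u j) ≤ D), ∏ j, α (v j) (u j)) ≤
      (∑ i, ∑ j, α i j) ^ K ∧
    ∀ l : Fin K, (∑ i, m i) ^ 2 * (∑ i, ∑ j, α i j) ^ (K - 1) / 2 ≤
      ∑ v ∈ univ.filter (fun v : Fin K → Fin r => ∑ j, ℓ (v j) ≤ D),
        ∑ u ∈ univ.filter (fun u : Fin K → Fin r => ∑ j, ℓ (u j) ≤ D),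
          m (v l) * m (u l) * ∏ j ∈ univ.erase l, α (v j) (u j)

/-- Module VaV. Uses: IpV, SuV, MkV. Proof. Given Λ: n with 139 max Λ 0 ≤ n + 1. K = 2^(n+1), r = n + 1, D = 13 (n+1) K, P a
= pr D a, bd a = 2^(a+1)/D, 𝒜 = the set of the v : Fin K → Fin r with ∑_j 2^(v j + 1) ≤ D, ℓ a = 2^(a+1), Lm = 2^(n+1) = K, α
a b = al a b, m a = mm a (sums over Fin r are sums over range (n+1): Finset.sum_range). D - Lm ≥ 12 (n+1) K, so MkV applies: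
4 (K-1) T ≤ 4 K 3 (n+1) ≤ (D - Lm) S because S ≥ 1. Vda: cutoffs ≥ 0 and ≤ 2^(a+1)/D; bd a ≤ 2^(n+1)/D ≤ 1; simp: divide by
D; pos: ip ≥ 0, the term v = u = 0 (in 𝒜: 2 K ≤ D) is (4/3/D^3)^K > 0. By IpV Iq = D^(-3K) ∑∑ ∏ α ≤ D^(-3K) S^K, Jq l =
D^(-4) D^(-3(K-1)) ∑∑ m m ∏ α ≥ D^(-3K-1) (∑ m)^2 S^(K-1)/2. So it is enough that Λ S D ≤ K (∑ m)^2/2: S ≤ 3, ∑ m ≥ (3/4)(n+1):
39 Λ (n+1) K ≤ K (9/32)(n+1)^2 follows from 139 Λ ≤ n + 1. -/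
def VaVStmt : Prop := VarStmt

end Pool.Agent.Lib.MP_9f2731_nt.CG.Mv
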