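import Pool.Agent.Lib.MP_9f2731_nt.CG.Mv.Spec

/-!
MP_9f2731_nt, THEOREM CG, chapter Mv, module IpV: the scalar products of the profiles.
-/

namespace Pool.Agent.Lib.MP_9f2731_nt.CG.Mv

open Finset
open Pool.Agent.Lib.MP_9f2731_nt.CG

private theorem ee_le {a b : ℝ} (h : a ≤ b) : Ee a b = a ^ 2 * (3 * b - a) / 6 := by
  unfold Ee
  rw [min_eq_left h, max_eq_right h]

private theorem ee_comm (a b : ℝ) : Ee a b = Ee b a := by
  unfold Ee
  rw [min_comm, max_comm]

private theorem ee_ge {a b : ℝ} (h : b ≤ a) : Ee a b = b ^ 2 * (3 * a - b) / 6 := by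
  rw [ee_comm, ee_le h]

private theorem ip_comm (P Q : Pf) : ip P Q = ip Q P := by
  unfold ip
  rw [Finset.sum_comm]
  refine Finset.sum_congr rfl fun t _ => Finset.sum_congr rfl fun s _ => ?_
  rw [ee_comm]
  ring

private theorem ip_far {P Q : Pf} (h : ∀ s t, P.be s ≤ Q.be t) (h0 : ∑ t, Q.co t = 0)
    (h1 : ∑ t, Q.co t * Q.be t = 0) : ip P Q = 0 := by
  unfold ip
  refine Finset.sum_eq_zero fun s _ => ?_
  have e : ∀ t, P.co s * Q.co t * (4 * Ee (P.be s) (Q.be t)) =
      2 * P.co s * P.be s ^ 2 * (Q.co t * Q.be t) - 2 / 3 * P.co s * P.be s ^ 3 * Q.co t := by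
    intro t
    rw [ee_le (h s t)]
    ring
  rw [Finset.sum_congr rfl fun t _ => e t, Finset.sum_sub_distrib, ← Finset.mul_sum,
    ← Finset.mul_sum, h0, h1]
  ring

/-- the profile with peak x -/
private noncomputable def qf (D x : ℝ) : Pf :=
  ⟨![1 / (2 * x ^ 2), -(3 / (2 * x ^ 2)), 1 / x ^ 2], ![2 * x / D, x / D, x / (2 * D)]⟩

private theorem pr_pos (D : ℝ) {i : ℕ} (hi : i ≠ 0) : pr D i = qf D (2 ^ i) := by
  unfold pr qf
  rw [if_neg hi]
  have h : ((1 : ℝ) / 4) ^ i = 1 / (2 ^ i) ^ 2 := by
    rw [← pow_mul, mul_comm i 2, pow_mul, div_pow, one_pow]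
    norm_num
  have hx : (2 : ℝ) ^ i ≠ 0 := by positivity
  congr 1
  · rw [h]
    congr 1
    · field_simp
    · congr 1
      field_simp
  · rw [pow_succ]
    congr 1
    ring

private theorem qf_im {D x : ℝ} (hD : 0 < D) (hx : 0 < x) : im (qf D x) = 3 / 4 / D ^ 2 := by
  unfold im qf
  simp only [Fin.sum_univ_three, Matrix.cons_val_zero, Matrix.cons_val_one, Matrix.cons_val]
  field_simp
  ring

private theorem qf_self {D x : ℝ} (hD : 0 < D) (hx : 0 < x) :
    ip (qf D x) (qf D x) = 1 / (2 * x) / D ^ 3 := by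
  have h12 : x / D ≤ 2 * x / D := by gcongr; linarith
  have h23 : x / (2 * D) ≤ x / D := by gcongr; linarith
  have h13 : x / (2 * D) ≤ 2 * x / D := h23.trans h12
  unfold ip qf
  simp only [Fin.sum_univ_three, Matrix.cons_val_zero, Matrix.cons_val_one, Matrix.cons_val]
  rw [ee_le (le_refl (2 * x / D)), ee_ge h12, ee_ge h13, ee_le h12, ee_le (le_refl (x / D)), ee_ge h23,
    ee_le h13, ee_le h23, ee_le (le_refl (x / (2 * D)))]
  field_simp
  ring

private theorem qf_next {D x : ℝ} (hD : 0 < D) (hx : 0 < x) :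
    ip (qf D x) (qf D (2 * x)) = 1 / (12 * x) / D ^ 3 := by
  have e1 : 2 * (2 * x) / D = 4 * x / D := by ring
  have e3 : 2 * x / (2 * D) = x / D := by field_simp
  have h1 : 2 * x / D ≤ 4 * x / D := by gcongr; linarith
  have h2 : x / D ≤ 4 * x / D := by gcongr; linarith
  have h3 : x / (2 * D) ≤ 4 * x / D := by
    have : x / (2 * D) ≤ x / D := by gcongr; linarith
    exact this.trans h2
  have h4 : x / D ≤ 2 * x / D := by gcongr; linarith
  have h5 : x / (2 * D) ≤ x / D := by gcongr; linarith
  unfold ip qf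
  simp only [Fin.sum_univ_three, Matrix.cons_val_zero, Matrix.cons_val_one, Matrix.cons_val]
  rw [e1, e3, ee_le h1, ee_le (le_refl (2 * x / D)), ee_ge h4, ee_le h2, ee_le h4,
    ee_le (le_refl (x / D)), ee_le h3, ee_le (h5.trans h4), ee_le h5]
  field_simp
  ring

private theorem qf_sum {D x : ℝ} (hD : 0 < D) (hx : 0 < x) :
    ∑ t, (qf D x).co t = 0 ∧ ∑ t, (qf D x).co t * (qf D x).be t = 0 := by
  unfold qf
  simp only [Fin.sum_univ_three, Matrix.cons_val_zero, Matrix.cons_val_one, Matrix.cons_val]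
  constructor
  · field_simp
    ring
  · field_simp
    ring

private theorem pr_be {D : ℝ} (hD : 0 < D) (i : ℕ) (s : Fin 3) : (pr D i).be s ≤ 2 ^ (i + 1) / D := by
  have hp : (1 : ℝ) ≤ 2 ^ i := one_le_pow₀ (by norm_num)
  by_cases hi : i = 0
  · subst hi
    unfold pr
    rw [if_pos rfl]
    fin_cases s
    · simp
    · simp only [Fin.mk_one, Matrix.cons_val_one, Matrix.cons_val_zero]
      gcongr
      norm_num
    · simp only [Fin.reduceFinMk, Matrix.cons_val]
      positivity
  · unfold pr
    rw [if_neg hi]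
    fin_cases s
    · simp
    · simp only [Fin.mk_one, Matrix.cons_val_one, Matrix.cons_val_zero]
      gcongr
      · norm_num
      · omega
    · simp only [Fin.reduceFinMk, Matrix.cons_val]
      rw [div_le_div_iff₀ (by positivity) hD, pow_succ]
      nlinarith [mul_pos (lt_of_lt_of_le one_pos hp) hD]

private theorem qf_be {D x : ℝ} (hD : 0 < D) (hx : 0 < x) (t : Fin 3) : x / (2 * D) ≤ (qf D x).be t := by
  have h12 : x / D ≤ 2 * x / D := by gcongr; linarith
  have h23 : x / (2 * D) ≤ x / D := by gcongr; linarith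
  unfold qf
  fin_cases t
  · exact h23.trans h12
  · exact h23
  · exact le_rfl

private theorem ip_le {D : ℝ} (hD : 0 < D) {i j : ℕ} (hij : i ≤ j) :
    ip (pr D i) (pr D j) = al i j / D ^ 3 := by
  have hal : (1 : ℝ) / 2 ^ i = (1 / 2) ^ i := by rw [div_pow, one_pow]
  rcases Nat.lt_or_ge j (i + 2) with h | h
  · rcases Nat.lt_or_ge j (i + 1) with h' | h'
    · obtain rfl : i = j := by omega
      by_cases hi : i = 0
      · subst hi
        unfold pr ip al
        rw [if_pos rfl, if_pos rfl, if_pos rfl]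
        simp only [Fin.sum_univ_three, Matrix.cons_val_zero, Matrix.cons_val_one, Matrix.cons_val]
        have h12 : 1 / D ≤ 2 / D := by gcongr; norm_num
        rw [ee_le (le_refl (2 / D)), ee_ge h12, ee_le h12, ee_le (le_refl (1 / D))]
        field_simp
        ring
      · rw [pr_pos D hi, qf_self hD (by positivity)]
        unfold al
        rw [if_pos rfl, if_neg hi, pow_succ (1 / 2 : ℝ) i, ← hal]
        congr 1
        field_simp
    · obtain rfl : j = i + 1 := by omega
      by_cases hi : i = 0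
      · subst hi
        unfold pr ip al
        rw [if_pos rfl, if_neg (by norm_num), if_neg (by norm_num), if_pos rfl]
        simp only [Fin.sum_univ_three, Matrix.cons_val_zero, Matrix.cons_val_one, Matrix.cons_val]
        have e1 : (2 : ℝ) ^ (0 + 1 + 1) / D = 4 / D := by norm_num
        have e2 : (2 : ℝ) ^ (0 + 1) / D = 2 / D := by norm_num
        have e3 : (2 : ℝ) ^ (0 + 1) / (2 * D) = 1 / D := by
          rw [zero_add, pow_one]
          field_simp
        have h1 : 2 / D ≤ 4 / D := by gcongr; norm_num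
        have h2 : 1 / D ≤ 2 / D := by gcongr; norm_num
        rw [e1, e2, e3, ee_le h1, ee_le (le_refl (2 / D)), ee_ge h2, ee_le (h2.trans h1), ee_le h2,
          ee_le (le_refl (1 / D))]
        field_simp
        norm_num
      · have e : (2 : ℝ) ^ (i + 1) = 2 * 2 ^ i := by rw [pow_succ]; ring
        rw [pr_pos D hi, pr_pos D (Nat.succ_ne_zero i), e, qf_next hD (by positivity)]
        unfold al
        rw [if_neg (by omega), if_pos rfl, ← hal]
        congr 1
        field_simp
  · have hj : j ≠ 0 := by omega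
    have h0 : al i j = 0 := by
      unfold al
      rw [if_neg (by omega), if_neg (by omega), if_neg (by omega)]
    rw [h0, zero_div, pr_pos D hj]
    have hs := qf_sum (D := D) (x := 2 ^ j) hD (by positivity)
    refine ip_far (fun s t => ?_) hs.1 hs.2
    refine (pr_be hD i s).trans (le_trans ?_ (qf_be hD (by positivity) t))
    rw [div_le_div_iff₀ hD (by positivity)]
    have h1 : (2 : ℝ) ^ (i + 2) ≤ 2 ^ j := pow_le_pow_right₀ (by norm_num) h
    have h2 : (2 : ℝ) ^ (i + 2) = 2 ^ (i + 1) * 2 := pow_succ _ _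
    nlinarith

private theorem al_comm (i j : ℕ) : al i j = al j i := by
  unfold al
  by_cases h : i = j
  · subst h; rfl
  · rw [if_neg h, if_neg (Ne.symm h)]
    by_cases h1 : j = i + 1
    · rw [if_pos h1, if_neg (by omega), if_pos h1]
    · rw [if_neg h1]
      by_cases h2 : i = j + 1
      · rw [if_pos h2, if_pos h2]
      · rw [if_neg h2, if_neg h2, if_neg h1]

theorem pIpV : IpVStmt := by
  intro D hD i j
  refine ⟨?_, ?_⟩
  · rcases le_total i j with h | h
    · exact ip_le hD h
    · rw [ip_comm, al_comm]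
      exact ip_le hD h
  · by_cases hi : i = 0
    · subst hi
      unfold pr im mm
      rw [if_pos rfl, if_pos rfl]
      simp only [Fin.sum_univ_three, Matrix.cons_val_zero, Matrix.cons_val_one, Matrix.cons_val]
      field_simp
      ring
    · rw [pr_pos D hi, qf_im hD (by positivity)]
      unfold mm
      rw [if_neg hi]

end Pool.Agent.Lib.MP_9f2731_nt.CG.Mv
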